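import Pool.Agent.Helper58.SF.StA

/-! # Project SF (MP_a45945_gt): module BEX (trajectories can be continued backwards) -/

set_option autoImplicit false

namespace Pool.Agent.Helper47.SF

open Set Topology Pool.Agent.Helper13.TR Pool.Agent.Helper58.SF

private lemma nul_mono {X : Type} [TopologicalSpace X] {A B : Set X} (h : A ⊆ B) (n : ℕ) :
    Nul B n ≤ Nul A n := by
  unfold Nul
  refine sup_le_sup_right ?_ _
  unfold cin
  apply Finsupp.supported_mono
  intro σ hσ
  exact Subset.trans hσ (compl_subset_compl.mpr h)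

theorem hBEX : StTUB → StFLW → StBEX := by
  intro hTUB hFLW P _ r R dg hS
  have := hS.met
  have : T2Space P := inferInstance
  have hF : Flow P r R := hS.box.toFlow
  obtain ⟨f1, f2, f3, f4, f5, f6, f7, f8⟩ := hFLW P r R hF
  have hcpt : ∀ (x : P) (t' : ℝ), r x ≤ t' → t' < 1 →
      IsCompact {y : P | r x ≤ r y ∧ r y ≤ t' ∧ R (r x) y ∈ ({x} : Set P)} := by
    intro x t' h1 h2
    refine hS.box.cpt (r x) t' {x} (hF.pos x) h1 h2 isCompact_singleton ?_
    intro y hy
    rw [mem_singleton_iff.mp hy]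
  constructor
  · intro x t' h1 h2
    by_contra hno
    push Not at hno
    have hlt : ∀ y ∈ Up r R x, r y < t' := by
      intro y hy
      by_contra hge
      push Not at hge
      have hx0 := hF.pos x
      have ht0 : 0 < t' := lt_of_lt_of_le hx0 h1
      have hz : r (R t' y) = t' := by
        rw [hF.rR t' y ht0, min_eq_left hge]
      apply hno (R t' y) _ hz
      refine ⟨?_, ?_⟩
      · rw [hz]
        exact h1
      · rw [hF.RR (r x) t' y hx0 h1]
        exact hy.2
    have hUe : Up r R x = {y : P | r x ≤ r y ∧ r y ≤ t' ∧ R (r x) y ∈ ({x} : Set P)} := by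
      ext y
      constructor
      · intro hy
        exact ⟨hy.1, (hlt y hy).le, hy.2⟩
      · intro hy
        exact ⟨hy.1, hy.2.2⟩
    have hc : IsCompact (Up r R x) := by
      rw [hUe]
      exact hcpt x t' h1 h2
    obtain ⟨c, hc1, hc2⟩ := hS.ws.cls (Up r R x) hc
    have hxU : x ∈ Up r R x := (f3 x).2.2.2.2.2.1
    have e1 : dg x c = 1 := hc2 x hxU
    have hUS : Up r R x = UpS r R (r x) {x} := (f3 x).2.2.2.2.1
    have hP : PP (UpS r R (r x) {x}) 3 := hTUB P r R hF (r x) {x} 3 (hF.pos x)
    have hN : c ∈ Nul (Up r R x) 3 := by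
      rw [hUS]
      apply hP
      rw [← hUS]
      exact hc1
    have hN2 : c ∈ Nul {x} 3 := nul_mono (singleton_subset_iff.mpr hxU) 3 hN
    have e2 : dg x c = 0 := hS.ws.nul x c hN2
    omega
  · intro x O hO hxO
    have hx1 := hF.lt x
    set t₁ : ℝ := (r x + 1) / 2 with ht₁
    have ht1 : r x < t₁ := by
      rw [ht₁]
      linarith
    have ht2 : t₁ < 1 := by
      rw [ht₁]
      linarith
    set K : Set P := {y : P | r x ≤ r y ∧ r y ≤ t₁ ∧ R (r x) y ∈ ({x} : Set P)} with hK
    have hKc : IsCompact (K \ O) := (hcpt x t₁ ht1.le ht2).diff hO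
    rcases (K \ O).eq_empty_or_nonempty with he | hne
    · refine ⟨t₁ - r x, by linarith, ?_⟩
      intro y hy hr
      by_contra hyO
      have : y ∈ K \ O := ⟨⟨hy.1, by linarith, hy.2⟩, hyO⟩
      rw [he] at this
      exact this
    · obtain ⟨y₀, hy₀, hmin⟩ := hKc.exists_isMinOn hne hF.rc.continuousOn
      have h0 : r x < r y₀ := by
        rcases lt_or_eq_of_le hy₀.1.1 with h | h
        · exact h
        · exfalso
          have e1 : R (r x) y₀ = y₀ := hF.Rid (r x) y₀ h.ge
          have e2 : R (r x) y₀ = x := hy₀.1.2.2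
          apply hy₀.2
          rw [← e1, e2]
          exact hxO
      refine ⟨min (r y₀ - r x) (t₁ - r x), lt_min (by linarith) (by linarith), ?_⟩
      intro y hy hr
      by_contra hyO
      have h3 := min_le_left (r y₀ - r x) (t₁ - r x)
      have h4 := min_le_right (r y₀ - r x) (t₁ - r x)
      have hyK : y ∈ K \ O := ⟨⟨hy.1, by linarith, hy.2⟩, hyO⟩
      have h5 : r y₀ ≤ r y := hmin hyK
      linarith

end Pool.Agent.Helper47.SF
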