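import Pool.Agent.Helper58.SF.StS

/-! # Project SF (MP_a45945_gt): module SEA (refinement of a link) -/

set_option autoImplicit false

namespace Pool.Agent.Helper47.SF

open Set Topology Pool.Agent.Helper58.SF

section

variable {Y : Type} [MetricSpace Y] {E : ℝ → Set Y} {Sm : Set Y → Prop}

private lemma Tb_lt {F : ℝ → Set Y} {p q : ℝ × Y} (h : Tb E Sm F p q) : p.1 < q.1 := by
  induction h with
  | one p q B h1 h2 h3 => exact h1.1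
  | cat p q s h1 h2 ih1 ih2 => exact ih1.trans ih2

private lemma Tb_congr {F F' : ℝ → Set Y} {p q : ℝ × Y} (h : Tb E Sm F p q)
    (hF : ∀ u ∈ Ico p.1 q.1, F' u = F u) : Tb E Sm F' p q := by
  induction h with
  | one p q B h1 h2 h3 => exact Tb.one p q B h1 h2 (fun u hu => (hF u hu).trans (h3 u hu))
  | cat p q s h1 h2 ih1 ih2 =>
    have l1 := Tb_lt h1
    have l2 := Tb_lt h2
    exact Tb.cat p q s (ih1 fun u hu => hF u ⟨hu.1, hu.2.trans l2⟩)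
      (ih2 fun u hu => hF u ⟨l1.le.trans hu.1, hu.2⟩)

private def Gd (E : ℝ → Set Y) (Sm : Set Y → Prop) (p q : ℝ × Y) : Prop :=
  ∃ F : ℝ → Set Y, Tb E Sm F p q

private lemma Gd_lt {p q : ℝ × Y} (h : Gd E Sm p q) : p.1 < q.1 := by
  obtain ⟨F, h⟩ := h
  exact Tb_lt h

private lemma Gd_trans {p q s : ℝ × Y} (h1 : Gd E Sm p q) (h2 : Gd E Sm q s) : Gd E Sm p s := by
  classical
  obtain ⟨F1, h1⟩ := h1
  obtain ⟨F2, h2⟩ := h2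
  refine ⟨fun u => if u < q.1 then F1 u else F2 u, Tb.cat p q s (Tb_congr h1 ?_) (Tb_congr h2 ?_)⟩
  · intro u hu
    exact if_pos hu.2
  · intro u hu
    exact if_neg (not_lt.mpr hu.1)

private lemma Gd_one {p q : ℝ × Y} {B : Set Y} (h : Lk E B p q) (hB : Sm B) : Gd E Sm p q :=
  ⟨fun _ => B, Tb.one p q B h hB fun _ _ => rfl⟩

private lemma Gd_back {p z : ℝ × Y} (h : Gd E Sm p z) : ∃ δ : ℝ, 0 < δ ∧ ∀ τ : ℝ, 0 < τ → τ < δ →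
    ∀ ξ ∈ E (z.1 - τ), dist ξ z.2 < δ → Gd E Sm p (z.1 - τ, ξ) := by
  obtain ⟨F, h⟩ := h
  induction h with
  | one p z B h1 h2 h3 =>
    obtain ⟨l1, l2, l3, l4, G, g1, g2, g3, g4, g5⟩ := h1
    obtain ⟨ε, hε, hb⟩ := Metric.isOpen_iff.mp g1 z g3
    refine ⟨min ε (z.1 - p.1), lt_min hε (by linarith), ?_⟩
    intro τ h0 hτ ξ hξ hd
    have t1 : τ < ε := lt_of_lt_of_le hτ (min_le_left _ _)
    have t2 : τ < z.1 - p.1 := lt_of_lt_of_le hτ (min_le_right _ _)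
    have t3 : z.1 - τ ≤ z.1 := by linarith
    refine Gd_one (B := B) ⟨?_, l2, hξ, l4, G, g1, g2, ?_, ?_, ?_⟩ h2
    · show p.1 < z.1 - τ
      linarith
    · apply hb
      rw [Metric.mem_ball, Prod.dist_eq]
      refine max_lt ?_ (lt_of_lt_of_le hd (min_le_left _ _))
      show dist (z.1 - τ) z.1 < ε
      rw [Real.dist_eq, abs_lt]
      constructor <;> linarith
    · intro u hu
      exact g4 u ⟨hu.1, hu.2.trans t3⟩
    · intro u hu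
      exact g5 u ⟨hu.1, hu.2.trans t3⟩
  | cat p q s h1 h2 ih1 ih2 =>
    obtain ⟨δ, hδ, hh⟩ := ih2
    exact ⟨δ, hδ, fun τ h0 hτ ξ hξ hd => Gd_trans ⟨_, h1⟩ (hh τ h0 hτ ξ hξ hd)⟩

private lemma LL (hE : Lsc E) {a b : ℝ} (ha : 0 ≤ a) (hb : b ≤ 1) {u : ℝ} (hu : u ∈ Icc a b)
    {ψ : Y} (hψ : ψ ∈ E u) {ρ : ℝ} (hρ : 0 < ρ) : ∃ δ : ℝ, 0 < δ ∧ ∀ v ∈ Icc a b,
    ∀ v' ∈ Icc a b, v < v' → |v - u| < δ → |v' - u| < δ → ∀ φ ∈ E v, ∀ φ' ∈ E v',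
    dist φ ψ < δ → dist φ' ψ < δ → Lk E (Metric.ball ψ ρ) (v, φ) (v', φ') := by
  have hu1 : u ∈ Icc (0 : ℝ) 1 := ⟨ha.trans hu.1, hu.2.trans hb⟩
  obtain ⟨δ₀, hδ₀, h0⟩ := hE.elc u hu1 ψ hψ ρ hρ
  obtain ⟨δ₁, hδ₁, h1⟩ := hE.lsc u hu1 ψ hψ δ₀ hδ₀
  refine ⟨min δ₀ δ₁, lt_min hδ₀ hδ₁, ?_⟩
  intro v hv v' hv' hvv hvu hvu' φ hφ φ' hφ' hd hd'
  have m0 := min_le_left δ₀ δ₁
  have m1 := min_le_right δ₀ δ₁
  refine ⟨hvv, hφ, hφ', Metric.isOpen_ball, {z : ℝ × Y | |z.1 - u| < min δ₀ δ₁ ∧ dist z.2 ψ < δ₀},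
    ?_, ⟨hvu, lt_of_lt_of_le hd m0⟩, ⟨hvu', lt_of_lt_of_le hd' m0⟩, ?_, ?_⟩
  · have c1 : Continuous fun z : ℝ × Y => |z.1 - u| := (continuous_fst.sub continuous_const).abs
    have c2 : Continuous fun z : ℝ × Y => dist z.2 ψ := continuous_snd.dist continuous_const
    exact (isOpen_lt c1 continuous_const).inter (isOpen_lt c2 continuous_const)
  · intro w hw
    have hw1 : w ∈ Icc (0 : ℝ) 1 := ⟨ha.trans (hv.1.trans hw.1), (hw.2.trans hv'.2).trans hb⟩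
    have hw1' : v ≤ w := hw.1
    have hw2' : w ≤ v' := hw.2
    have hwu : |w - u| < min δ₀ δ₁ := by
      rw [abs_lt] at hvu hvu' ⊢
      constructor <;> linarith [hvu.1, hvu.2, hvu'.1, hvu'.2]
    obtain ⟨θ, hθ, hθd⟩ := h1 w hw1 (lt_of_lt_of_le hwu m1)
    exact ⟨θ, hθ, hwu, hθd⟩
  · intro w hw θ₁ hθ₁ θ₂ hθ₂ g1 g2
    have hw1 : w ∈ Icc (0 : ℝ) 1 := ⟨ha.trans (hv.1.trans hw.1), (hw.2.trans hv'.2).trans hb⟩
    exact h0 w hw1 (lt_of_lt_of_le g1.1 m0) θ₁ hθ₁ θ₂ hθ₂ g1.2 g2.2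

private lemma PJ (hE : Lsc E) {a b : ℝ} (ha : 0 ≤ a) (hb : b ≤ 1) {B : Set Y}
    (hSm : ∀ u ∈ Icc a b, ∀ θ ∈ E u ∩ B, ∃ ρ₀ : ℝ, 0 < ρ₀ ∧ ∀ ρ : ℝ, 0 < ρ → ρ ≤ ρ₀ →
      Sm (Metric.ball θ ρ)) {p : ℝ × Y} (hp : p.1 = a) {v : ℝ} (hv : v ∈ Icc a b) {ξ ψ : Y}
    (hg : Gd E Sm p (v, ξ)) (hj : JoinedIn (E v ∩ B) ξ ψ) : Gd E Sm p (v, ψ) := by
  obtain ⟨γ, hγ⟩ := hj
  have hv1 : v ∈ Icc (0 : ℝ) 1 := ⟨ha.trans hv.1, hv.2.trans hb⟩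
  have key : ∀ t₀ : unitInterval, ∃ δ : ℝ, 0 < δ ∧ ∀ t : unitInterval, dist (γ t) (γ t₀) < δ →
      Gd E Sm p (v, γ t) → ∀ t' : unitInterval, dist (γ t') (γ t₀) < δ →
      Gd E Sm p (v, γ t') := by
    intro t₀
    obtain ⟨ρ, hρ, hρS⟩ := hSm v hv (γ t₀) (hγ t₀)
    obtain ⟨δ, hδ, hL⟩ := LL hE ha hb hv (hγ t₀).1 hρ
    refine ⟨δ, hδ, ?_⟩
    intro t ht hgt t' ht'
    obtain ⟨δ', hδ', hB⟩ := Gd_back hgt
    obtain ⟨δ₂, hδ₂, hl⟩ := hE.lsc v hv1 (γ t) (hγ t).1 (min δ' (δ - dist (γ t) (γ t₀)))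
      (lt_min hδ' (by linarith))
    have hav : a < v := by
      have := Gd_lt hg
      rw [hp] at this
      exact this
    have hpos : 0 < min (min δ' δ₂) (min δ (v - a)) :=
      lt_min (lt_min hδ' hδ₂) (lt_min hδ (by linarith))
    set μ : ℝ := min (min δ' δ₂) (min δ (v - a)) with hμ
    have m1 : μ ≤ δ' := (min_le_left _ _).trans (min_le_left _ _)
    have m2 : μ ≤ δ₂ := (min_le_left _ _).trans (min_le_right _ _)
    have m3 : μ ≤ δ := (min_le_right _ _).trans (min_le_left _ _)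
    have m4 : μ ≤ v - a := (min_le_right _ _).trans (min_le_right _ _)
    have hvI : v - μ / 2 ∈ Icc a b := ⟨by linarith, by linarith [hv.2]⟩
    have hvI1 : v - μ / 2 ∈ Icc (0 : ℝ) 1 := ⟨ha.trans hvI.1, hvI.2.trans hb⟩
    have habs : |v - μ / 2 - v| = μ / 2 := by
      have e : v - μ / 2 - v = -(μ / 2) := by ring
      rw [e, abs_neg, abs_of_pos (by linarith)]
    obtain ⟨θ, hθ, hθd⟩ := hl (v - μ / 2) hvI1 (by rw [habs]; linarith)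
    have d1 : dist θ (γ t) < δ' := lt_of_lt_of_le hθd (min_le_left _ _)
    have d2 : dist θ (γ t) < δ - dist (γ t) (γ t₀) := lt_of_lt_of_le hθd (min_le_right _ _)
    have hg2 : Gd E Sm p (v - μ / 2, θ) := hB (μ / 2) (by linarith) (by linarith) θ hθ d1
    refine Gd_trans hg2 (Gd_one (hL (v - μ / 2) hvI v hv (by linarith) ?_ ?_ θ hθ (γ t') (hγ t').1
      ?_ ht') (hρS ρ hρ le_rfl))
    · rw [habs]
      linarith
    · rw [sub_self, abs_zero]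
      exact hδ
    · calc dist θ (γ t₀) ≤ dist θ (γ t) + dist (γ t) (γ t₀) := dist_triangle _ _ _
        _ < δ := by linarith
  have hnh : ∀ (t₀ : unitInterval) (δ : ℝ), 0 < δ → {t | dist (γ t) (γ t₀) < δ} ∈ 𝓝 t₀ := by
    intro t₀ δ hδ
    have := γ.continuous.continuousAt (x := t₀)
    exact this (Metric.ball_mem_nhds _ hδ)
  have hZ : IsClopen {t : unitInterval | Gd E Sm p (v, γ t)} := by
    constructor
    · rw [← isOpen_compl_iff, isOpen_iff_mem_nhds]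
      intro t₀ ht₀
      obtain ⟨δ, hδ, hk⟩ := key t₀
      filter_upwards [hnh t₀ δ hδ] with t ht
      intro hgt
      exact ht₀ (hk t ht hgt t₀ (by rw [dist_self]; exact hδ))
    · rw [isOpen_iff_mem_nhds]
      intro t₀ ht₀
      obtain ⟨δ, hδ, hk⟩ := key t₀
      filter_upwards [hnh t₀ δ hδ] with t ht
      exact hk t₀ (by rw [dist_self]; exact hδ) ht₀ t ht
  have hZu := hZ.eq_univ ⟨0, by
    show Gd E Sm p (v, γ 0)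
    rw [γ.source]
    exact hg⟩
  have h1 : (1 : unitInterval) ∈ {t : unitInterval | Gd E Sm p (v, γ t)} := by
    rw [hZu]
    exact mem_univ _
  have h2 : Gd E Sm p (v, γ 1) := h1
  rw [γ.target] at h2
  exact h2

end

theorem hSEA : StSEA := by
  intro Y _ E hE Sm B p q hp0 hq1 hL hSm
  obtain ⟨hpq, hpE, hqE, hBo, G, g1, g2, g3, g4, g5⟩ := hL
  obtain ⟨a, α⟩ := p
  obtain ⟨b, β⟩ := q
  simp only at hp0 hq1 hpq hpE hqE g4 g5 hSm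
  show Gd E Sm (a, α) (b, β)
  -- local data
  have hloc : ∀ u ∈ Icc a b, ∀ ψ ∈ E u, (u, ψ) ∈ G → ∃ (B' : Set Y) (δ η : ℝ), Sm B' ∧ 0 < δ ∧
      0 < η ∧ η ≤ δ ∧ (∀ v ∈ Icc a b, ∀ v' ∈ Icc a b, v < v' → |v - u| < δ → |v' - u| < δ →
        ∀ φ ∈ E v, ∀ φ' ∈ E v', dist φ ψ < δ → dist φ' ψ < δ → Lk E B' (v, φ) (v', φ')) ∧
      (∀ v ∈ Icc a b, |v - u| < η → ∃ φ ∈ E v, (v, φ) ∈ G ∧ dist φ ψ < δ) := by
    intro u hu ψ hψ hG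
    have hψB : ψ ∈ E u ∩ B := (g5 u hu ψ hψ ψ hψ hG hG).source_mem
    have hu1 : u ∈ Icc (0 : ℝ) 1 := ⟨hp0.trans hu.1, hu.2.trans hq1⟩
    obtain ⟨ρ, hρ, hρS⟩ := hSm u hu ψ hψB
    obtain ⟨δ, hδ, hL⟩ := LL hE hp0 hq1 hu hψ hρ
    obtain ⟨ε, hε, hb⟩ := Metric.isOpen_iff.mp g1 (u, ψ) hG
    obtain ⟨δ₂, hδ₂, hl⟩ := hE.lsc u hu1 ψ hψ (min ε δ) (lt_min hε hδ)
    refine ⟨Metric.ball ψ ρ, δ, min δ (min ε δ₂), hρS ρ hρ le_rfl, hδ, lt_min hδ (lt_min hε hδ₂),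
      min_le_left _ _, hL, ?_⟩
    intro v hv hvu
    have k1 : |v - u| < ε := lt_of_lt_of_le hvu ((min_le_right _ _).trans (min_le_left _ _))
    have k2 : |v - u| < δ₂ := lt_of_lt_of_le hvu ((min_le_right _ _).trans (min_le_right _ _))
    obtain ⟨φ, hφ, hφd⟩ := hl v ⟨hp0.trans hv.1, hv.2.trans hq1⟩ k2
    refine ⟨φ, hφ, ?_, lt_of_lt_of_le hφd (min_le_right _ _)⟩
    apply hb
    rw [Metric.mem_ball, Prod.dist_eq]
    exact max_lt (by rw [Real.dist_eq]; exact k1) (lt_of_lt_of_le hφd (min_le_left _ _))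
  -- good times
  have hall : ∀ v ∈ Icc a b, (∃ ξ ∈ E v, (v, ξ) ∈ G ∧ Gd E Sm (a, α) (v, ξ)) → ∀ ψ ∈ E v,
      (v, ψ) ∈ G → Gd E Sm (a, α) (v, ψ) := by
    rintro v hv ⟨ξ, hξ, hξG, hg⟩ ψ hψ hψG
    exact PJ hE hp0 hq1 hSm rfl hv hg (g5 v hv ξ hξ ψ hψ hξG hψG)
  have hstart : ∃ η : ℝ, 0 < η ∧ ∀ v ∈ Icc a b, a < v → |v - a| < η →
      ∃ ξ ∈ E v, (v, ξ) ∈ G ∧ Gd E Sm (a, α) (v, ξ) := by
    have haI : a ∈ Icc a b := ⟨le_rfl, hpq.le⟩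
    obtain ⟨B', δ, η, h1, h2, h3, h4, h5, h6⟩ := hloc a haI α hpE g2
    refine ⟨η, h3, ?_⟩
    intro v hv hav hva
    obtain ⟨φ, hφ, hφG, hφd⟩ := h6 v hv hva
    refine ⟨φ, hφ, hφG, Gd_one (h5 a haI v hv hav ?_ (lt_of_lt_of_le hva h4) α hpE φ hφ ?_ hφd) h1⟩
    · rw [sub_self, abs_zero]
      exact h2
    · rw [dist_self]
      exact h2
  have hstep : ∀ u ∈ Icc a b, ∃ η : ℝ, 0 < η ∧ ∀ v ∈ Icc a b, ∀ v' ∈ Icc a b, v < v' →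
      |v - u| < η → |v' - u| < η → (∃ ξ ∈ E v, (v, ξ) ∈ G ∧ Gd E Sm (a, α) (v, ξ)) →
      ∃ ξ ∈ E v', (v', ξ) ∈ G ∧ Gd E Sm (a, α) (v', ξ) := by
    intro u hu
    obtain ⟨ψ, hψ, hψG⟩ := g4 u hu
    obtain ⟨B', δ, η, h1, h2, h3, h4, h5, h6⟩ := hloc u hu ψ hψ hψG
    refine ⟨η, h3, ?_⟩
    intro v hv v' hv' hvv hvu hvu' hBs
    obtain ⟨φ, hφ, hφG, hφd⟩ := h6 v hv hvu
    obtain ⟨φ', hφ', hφG', hφd'⟩ := h6 v' hv' hvu'
    refine ⟨φ', hφ', hφG', Gd_trans (hall v hv hBs φ hφ hφG) (Gd_one (h5 v hv v' hv' hvv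
      (lt_of_lt_of_le hvu h4) (lt_of_lt_of_le hvu' h4) φ hφ φ' hφ' hφd hφd') h1)⟩
  have hfin : ∃ ξ ∈ E b, (b, ξ) ∈ G ∧ Gd E Sm (a, α) (b, ξ) := by
    by_contra hno
    set N : Set ℝ := {v : ℝ | a < v ∧ v ≤ b ∧ ¬ ∃ ξ ∈ E v, (v, ξ) ∈ G ∧ Gd E Sm (a, α) (v, ξ)}
      with hN
    have hbN : b ∈ N := ⟨hpq, le_rfl, hno⟩
    have hbd : BddBelow N := ⟨a, fun v hv => hv.1.le⟩
    have hne : N.Nonempty := ⟨b, hbN⟩
    have hc1 : a ≤ sInf N := le_csInf hne fun v hv => hv.1.le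
    have hc2 : sInf N ≤ b := csInf_le hbd hbN
    rcases hc1.eq_or_lt with hc | hc
    · obtain ⟨η, hη, hs⟩ := hstart
      obtain ⟨v, hv, hvlt⟩ := exists_lt_of_csInf_lt hne (show sInf N < a + η by linarith)
      apply hv.2.2
      apply hs v ⟨hv.1.le, hv.2.1⟩ hv.1
      rw [abs_of_pos (by linarith [hv.1])]
      linarith
    · obtain ⟨η, hη, hs⟩ := hstep (sInf N) ⟨hc1, hc2⟩
      obtain ⟨v', hv', hvlt⟩ := exists_lt_of_csInf_lt hne (show sInf N < sInf N + η by linarith)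
      have hcv' : sInf N ≤ v' := csInf_le hbd hv'
      obtain ⟨v, hv1, hv2⟩ := exists_between (show max a (sInf N - η) < sInf N from
        max_lt hc (by linarith))
      have hav : a < v := lt_of_le_of_lt (le_max_left _ _) hv1
      have hηv : sInf N - η < v := lt_of_le_of_lt (le_max_right _ _) hv1
      have hvN : v ∉ N := fun h => absurd (csInf_le hbd h) (not_le.mpr hv2)
      have hBs : ∃ ξ ∈ E v, (v, ξ) ∈ G ∧ Gd E Sm (a, α) (v, ξ) := by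
        by_contra h
        exact hvN ⟨hav, by linarith, h⟩
      apply hv'.2.2
      refine hs v ⟨hav.le, by linarith⟩ v' ⟨hv'.1.le, hv'.2.1⟩ (by linarith) ?_ ?_ hBs
      · rw [abs_lt]
        constructor <;> linarith
      · rw [abs_lt]
        constructor <;> linarith
  exact hall b ⟨hpq.le, le_rfl⟩ hfin β hqE g3

end Pool.Agent.Helper47.SF
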